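import Pool.Agent.V11288.LZ.Par

/-!
# The `L`-value quotient of the Ichino–Ikeda conjecture as a limit of sums over Satake parameters

Let `τ`, `σ` be the tempered cuspidal representations of `G_n(𝔸)`, `G_{n+1}(𝔸)` in the problem and `S` a finite
set of places of `F` containing the infinite ones, outside which everything is unramified.  One of the groups
`G_n`, `G_{n+1}` has the orthogonal group of the even one of `n`, `n+1` as dual group, the other one a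
symplectic group; let `a_v`, `b_v` (for `v ∉ S`) be the families of the eigenvalues of the Satake parameters of
the first resp. the second representation in the standard representations; all have the absolute value `1`, since
the representations are tempered.  Then

`L^S(s, τ×σ) = ∏_{v ∉ S} ∏_{i,j} (1 - a_{v,i} b_{v,j} q_v^{-s})⁻¹`,
`L^S(s, Ad) = ∏_{v ∉ S} ∏_{i<j} (1 - a_{v,i} a_{v,j} q_v^{-s})⁻¹` for the first representation,
`L^S(s, Ad) = ∏_{v ∉ S} ∏_{i≤j} (1 - b_{v,i} b_{v,j} q_v^{-s})⁻¹` for the second one.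

Let `𝓛^S` be the quotient of the value of the first function at `s = 1/2` by the product of the values of the
other two at `s = 1` (assumed to be different from `0`).  For `γ > π/2` and `X > 1` let, with
`u = k log q_v / log X` and the power sums `p_v(k) = ∑_i a_{v,i}^k`, `p'_v(k) = ∑_j b_{v,j}^k`,

`V(X) = ∑_{v ∉ S} ∑_{k ≥ 1} ( p_v(k) p'_v(k) q_v^{-k/2}
        - (p_v(k)² - p_v(2k) + p'_v(k)² + p'_v(2k)) q_v^{-k} / 2 ) / k · e^{iγu} / Γ(1 + u)`.

The sum converges absolutely, and `exp V(X) = 𝓛^S + O(1/log X)` for `X → ∞`.  So for every complex number `C`,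
`𝓛^S = C` if and only if `exp V(X) → C`.  With `C = 𝒫(φ,f) / (2^{-β} Δ ∏_{v ∈ S} 𝓛_v 𝒫_v(φ_v,f_v))` (and
`𝒫_v = 1` for `v ∉ S`) this turns the identity of Q1, for given `φ`, `f`, into a statement on the Satake
parameters without analytic continuation: the global period is the limit of explicit sums over the places of `F`.
No hypothesis on the zeros of the `L`-functions is used; of the continuation only the meromorphic continuation of
`L^S(s, τ×σ)` to the points of the real interval `[1/2, 1]`, holomorphic at `1/2`, and the holomorphy at `1` of the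
adjoint `L`-functions.

Proof.  `Pool.Agent.V11288.LZ` (the law of rotated Mittag-Leffler sums at all real points, with a rate), and
Newton's identities for `Λ²` and `Sym²`.
-/

set_option autoImplicit false

namespace Pool.Agent.Results.MP_f4c338_nt.QuotientBySatake

open Filter Topology Set NumberField IsDedekindDomain

variable {F : Type} [Field F] [NumberField F] {S : Set (HeightOneSpectrum (𝓞 F))} {N M : ℕ}

/-- `q_v`. -/
noncomputable def nrm (v : HeightOneSpectrum (𝓞 F)) : ℕ := Ideal.absNorm v.asIdeal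

/-- The pairs `(i, j)` with `i < j`. -/
abbrev Lt (N : ℕ) : Type := {x : Fin N × Fin N // x.1 < x.2}

/-- The pairs `(i, j)` with `i ≤ j`. -/
abbrev Le (M : ℕ) : Type := {x : Fin M × Fin M // x.1 ≤ x.2}

/-- The Euler product of the factors `∏_j (1 - c_{v,j} q_v^{-s})⁻¹`, `v ∉ S`. -/
noncomputable def product {J : Type} [Fintype J] (c : {v : HeightOneSpectrum (𝓞 F) // v ∉ S} → J → ℂ)
    (s : ℂ) : ℂ := ∏' v, ∏ j, (1 - c v j * (nrm v.1 : ℂ) ^ (-s))⁻¹

/-- `L` is the Euler product given by `c` for `Re s > 1`, meromorphic at the points of the real interval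
`[x₀, 1]` and holomorphic at `x₀`. -/
structure IsLFunction {J : Type} [Fintype J] (c : {v : HeightOneSpectrum (𝓞 F) // v ∉ S} → J → ℂ)
    (x₀ : ℝ) (L : ℂ → ℂ) : Prop where
  mero : ∀ x ∈ Icc x₀ 1, MeromorphicAt L (x : ℂ)
  holo : AnalyticAt ℂ L (x₀ : ℂ)
  prod : ∀ s : ℂ, 1 < s.re → L s = product c s

/-- The family `a_{v,i} b_{v,j}`. -/
def tensor (a : {v : HeightOneSpectrum (𝓞 F) // v ∉ S} → Fin N → ℂ)
    (b : {v : HeightOneSpectrum (𝓞 F) // v ∉ S} → Fin M → ℂ)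
    (v : {v : HeightOneSpectrum (𝓞 F) // v ∉ S}) (x : Fin N × Fin M) : ℂ := a v x.1 * b v x.2

/-- The family `a_{v,i} a_{v,j}`, `i < j`. -/
def ext (a : {v : HeightOneSpectrum (𝓞 F) // v ∉ S} → Fin N → ℂ)
    (v : {v : HeightOneSpectrum (𝓞 F) // v ∉ S}) (x : Lt N) : ℂ := a v x.1.1 * a v x.1.2

/-- The family `b_{v,i} b_{v,j}`, `i ≤ j`. -/
def sym (b : {v : HeightOneSpectrum (𝓞 F) // v ∉ S} → Fin M → ℂ)
    (v : {v : HeightOneSpectrum (𝓞 F) // v ∉ S}) (x : Le M) : ℂ := b v x.1.1 * b v x.1.2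

/-- The weight `e^{iγu} / Γ(1 + u)`. -/
noncomputable def weight (γ u : ℝ) : ℂ :=
  Complex.exp ((γ * u : ℝ) * Complex.I) / (Real.Gamma (1 + u) : ℂ)

/-- The term of `V(X)` at `(v, k)`. -/
noncomputable def term (a : {v : HeightOneSpectrum (𝓞 F) // v ∉ S} → Fin N → ℂ)
    (b : {v : HeightOneSpectrum (𝓞 F) // v ∉ S} → Fin M → ℂ) (γ X : ℝ)
    (v : {v : HeightOneSpectrum (𝓞 F) // v ∉ S}) (k : ℕ) : ℂ :=
  ((∑ i, a v i ^ k) * (∑ j, b v j ^ k) / ((nrm v.1 : ℝ) ^ ((k : ℝ) / 2) : ℝ) -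
    ((∑ i, a v i ^ k) ^ 2 - ∑ i, a v i ^ (2 * k) + (∑ j, b v j ^ k) ^ 2 + ∑ j, b v j ^ (2 * k)) / 2 /
      (nrm v.1 : ℂ) ^ k) / k * weight γ (k * Real.log (nrm v.1) / Real.log X)

/-- `V(X)`, the sum over `v ∉ S` and `k ≥ 1` (here `k = x.2 + 1`). -/
noncomputable def V (a : {v : HeightOneSpectrum (𝓞 F) // v ∉ S} → Fin N → ℂ)
    (b : {v : HeightOneSpectrum (𝓞 F) // v ∉ S} → Fin M → ℂ) (γ X : ℝ) : ℂ :=
  ∑' x : {v : HeightOneSpectrum (𝓞 F) // v ∉ S} × ℕ, term a b γ X x.1 (x.2 + 1)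

open Pool.Agent.V11288.LZ

set_option linter.unusedSectionVars false

section proof

variable {a : {v : HeightOneSpectrum (𝓞 F) // v ∉ S} → Fin N → ℂ}
  {b : {v : HeightOneSpectrum (𝓞 F) // v ∉ S} → Fin M → ℂ}

theorem sum_tensor (v : {v : HeightOneSpectrum (𝓞 F) // v ∉ S}) (k : ℕ) :
    ∑ x, tensor a b v x ^ k = (∑ i, a v i ^ k) * ∑ j, b v j ^ k := by
  rw [Finset.sum_mul_sum, Fintype.sum_prod_type]
  refine Finset.sum_congr rfl fun i _ => Finset.sum_congr rfl fun j _ => ?_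
  unfold tensor
  rw [mul_pow]

theorem sum_pairs {n : ℕ} (c : Fin n → ℂ) :
    (∑ x : Lt n, c x.1.1 * c x.1.2) + (∑ x : Le n, c x.1.1 * c x.1.2) = (∑ i, c i) ^ 2 := by
  have h1 : ∑ x : Lt n, c x.1.1 * c x.1.2 = ∑ x : Fin n × Fin n with x.1 < x.2, c x.1 * c x.2 :=
    (Finset.sum_subtype (p := fun x : Fin n × Fin n => x.1 < x.2)
      (Finset.univ.filter fun x : Fin n × Fin n => x.1 < x.2) (by simp) (fun x => c x.1 * c x.2)).symm
  have h2 : ∑ x : Le n, c x.1.1 * c x.1.2 = ∑ x : Fin n × Fin n with x.1 ≤ x.2, c x.1 * c x.2 :=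
    (Finset.sum_subtype (p := fun x : Fin n × Fin n => x.1 ≤ x.2)
      (Finset.univ.filter fun x : Fin n × Fin n => x.1 ≤ x.2) (by simp) (fun x => c x.1 * c x.2)).symm
  have h3 : ∑ x : Fin n × Fin n with x.1 < x.2, c x.1 * c x.2 =
      ∑ x : Fin n × Fin n with ¬ x.1 ≤ x.2, c x.1 * c x.2 := by
    refine Finset.sum_nbij' (fun x => (x.2, x.1)) (fun x => (x.2, x.1)) ?_ ?_ ?_ ?_ ?_
    · intro x hx
      simpa using hx
    · intro x hx
      simpa using hx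
    · intro x _
      rfl
    · intro x _
      rfl
    · intro x _
      exact mul_comm _ _
  rw [h1, h2, h3, add_comm, Finset.sum_filter_add_sum_filter_not, sq, Finset.sum_mul_sum,
    ← Finset.univ_product_univ, Finset.sum_product]

theorem sum_diag {n : ℕ} (c : Fin n → ℂ) :
    (∑ x : Le n, c x.1.1 * c x.1.2) = (∑ x : Lt n, c x.1.1 * c x.1.2) + ∑ i, c i ^ 2 := by
  have h1 : ∑ x : Lt n, c x.1.1 * c x.1.2 = ∑ x : Fin n × Fin n with x.1 < x.2, c x.1 * c x.2 :=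
    (Finset.sum_subtype (p := fun x : Fin n × Fin n => x.1 < x.2)
      (Finset.univ.filter fun x : Fin n × Fin n => x.1 < x.2) (by simp) (fun x => c x.1 * c x.2)).symm
  have h2 : ∑ x : Le n, c x.1.1 * c x.1.2 = ∑ x : Fin n × Fin n with x.1 ≤ x.2, c x.1 * c x.2 :=
    (Finset.sum_subtype (p := fun x : Fin n × Fin n => x.1 ≤ x.2)
      (Finset.univ.filter fun x : Fin n × Fin n => x.1 ≤ x.2) (by simp) (fun x => c x.1 * c x.2)).symm
  have h3 : ∑ i, c i ^ 2 = ∑ x : Fin n × Fin n with x.1 = x.2, c x.1 * c x.2 := by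
    refine Finset.sum_nbij' (fun i => (i, i)) (fun x => x.1) ?_ ?_ ?_ ?_ ?_
    · intro i _
      simp
    · intro x _
      simp
    · intro i _
      rfl
    · intro x hx
      have : x.1 = x.2 := by simpa using hx
      exact Prod.ext rfl this
    · intro i _
      exact sq _
  have h4 : (Finset.univ.filter fun x : Fin n × Fin n => x.1 ≤ x.2) =
      (Finset.univ.filter fun x : Fin n × Fin n => x.1 < x.2) ∪
        (Finset.univ.filter fun x : Fin n × Fin n => x.1 = x.2) := by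
    ext x
    simp [le_iff_lt_or_eq]
  rw [h1, h2, h3, h4, Finset.sum_union]
  rw [Finset.disjoint_filter]
  intro x _ h5 h6
  exact h5.ne h6

theorem sum_ext (v : {v : HeightOneSpectrum (𝓞 F) // v ∉ S}) (k : ℕ) :
    ∑ x, ext a v x ^ k = ((∑ i, a v i ^ k) ^ 2 - ∑ i, a v i ^ (2 * k)) / 2 := by
  have h1 := sum_pairs fun i => a v i ^ k
  have h2 := sum_diag fun i => a v i ^ k
  have h3 : ∑ i, (a v i ^ k) ^ 2 = ∑ i, a v i ^ (2 * k) :=
    Finset.sum_congr rfl fun i _ => by rw [← pow_mul, mul_comm]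
  have h4 : ∑ x, ext a v x ^ k = ∑ x : Lt N, a v x.1.1 ^ k * a v x.1.2 ^ k :=
    Finset.sum_congr rfl fun x _ => by unfold ext; rw [mul_pow]
  rw [h4]
  rw [h3] at h2
  linear_combination (1 / 2 : ℂ) * h1 - (1 / 2 : ℂ) * h2

theorem sum_sym (v : {v : HeightOneSpectrum (𝓞 F) // v ∉ S}) (k : ℕ) :
    ∑ x, sym b v x ^ k = ((∑ i, b v i ^ k) ^ 2 + ∑ i, b v i ^ (2 * k)) / 2 := by
  have h1 := sum_pairs fun i => b v i ^ k
  have h2 := sum_diag fun i => b v i ^ k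
  have h3 : ∑ i, (b v i ^ k) ^ 2 = ∑ i, b v i ^ (2 * k) :=
    Finset.sum_congr rfl fun i _ => by rw [← pow_mul, mul_comm]
  have h4 : ∑ x, sym b v x ^ k = ∑ x : Le M, b v x.1.1 ^ k * b v x.1.2 ^ k :=
    Finset.sum_congr rfl fun x _ => by unfold sym; rw [mul_pow]
  rw [h4]
  rw [h3] at h2
  linear_combination (1 / 2 : ℂ) * h1 + (1 / 2 : ℂ) * h2

theorem term_eq (γ X : ℝ) (v : {v : HeightOneSpectrum (𝓞 F) // v ∉ S}) (k : ℕ) :
    jterm (S := {v | v ∉ S}) (tensor a b) (1 / 2) γ X v k -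
      jterm (S := {v | v ∉ S}) (ext a) 1 γ X v k - jterm (S := {v | v ∉ S}) (sym b) 1 γ X v k =
      term a b γ X v k := by
  unfold jterm term
  have h1 := sum_tensor (a := a) (b := b) v k
  have h2 := sum_ext (a := a) v k
  have h3 := sum_sym (b := b) v k
  rw [h1, h2, h3]
  have hq : (0 : ℝ) ≤ (Ideal.absNorm v.1.asIdeal : ℝ) := Nat.cast_nonneg _
  have h4 : ((((Ideal.absNorm v.1.asIdeal : ℝ) ^ (1 / 2 : ℝ) : ℝ)) : ℂ) ^ k =
      (((nrm v.1 : ℝ) ^ ((k : ℝ) / 2) : ℝ) : ℂ) := by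
    rw [← Complex.ofReal_pow, ← Real.rpow_natCast, ← Real.rpow_mul hq]
    congr 2
    ring
  rw [h4, Real.rpow_one]
  have h5 : ((Ideal.absNorm v.1.asIdeal : ℝ) : ℂ) = (nrm v.1 : ℂ) := by
    unfold nrm
    push_cast
    rfl
  rw [h5]
  have h6 : wt γ (k * Real.log (Ideal.absNorm v.1.asIdeal) / Real.log X) =
      weight γ (k * Real.log (nrm v.1) / Real.log X) := rfl
  rw [h6]
  ring

end proof

/-- **The Ichino–Ikeda quotient as a limit of sums over Satake parameters.** -/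
theorem result (a : {v : HeightOneSpectrum (𝓞 F) // v ∉ S} → Fin N → ℂ)
    (b : {v : HeightOneSpectrum (𝓞 F) // v ∉ S} → Fin M → ℂ) (ha : ∀ v i, ‖a v i‖ = 1)
    (hb : ∀ v j, ‖b v j‖ = 1) (L L₁ L₂ : ℂ → ℂ) (hL : IsLFunction (tensor a b) (1 / 2) L)
    (hL₁ : IsLFunction (ext a) 1 L₁) (hL₂ : IsLFunction (sym b) 1 L₂) (h₁ : L₁ 1 ≠ 0)
    (h₂ : L₂ 1 ≠ 0) (γ : ℝ) (hγ : Real.pi / 2 < γ) :
    (∀ X : ℝ, 1 < X → Summable fun x : {v : HeightOneSpectrum (𝓞 F) // v ∉ S} × ℕ =>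
      ‖term a b γ X x.1 (x.2 + 1)‖) ∧
    (fun X : ℝ => Complex.exp (V a b γ X) - L (1 / 2) / (L₁ 1 * L₂ 1)) =O[atTop]
      (fun X : ℝ => 1 / Real.log X) ∧
    ∀ C : ℂ, L (1 / 2) / (L₁ 1 * L₂ 1) = C ↔
      Tendsto (fun X : ℝ => Complex.exp (V a b γ X)) atTop (𝓝 C) := by
  have hn0 : ∀ (v : {v | v ∉ S}) (x : Fin N × Fin M),
      ‖tensor a b v x‖ ≤ (Ideal.absNorm v.1.asIdeal : ℝ) ^ (0 : ℝ) := fun v x => by
    unfold tensor
    rw [norm_mul, ha, hb, Real.rpow_zero, mul_one]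
  have hn1 : ∀ (v : {v | v ∉ S}) (x : Lt N),
      ‖ext a v x‖ ≤ (Ideal.absNorm v.1.asIdeal : ℝ) ^ (0 : ℝ) := fun v x => by
    unfold ext
    rw [norm_mul, ha, ha, Real.rpow_zero, mul_one]
  have hn2 : ∀ (v : {v | v ∉ S}) (x : Le M),
      ‖sym b v x‖ ≤ (Ideal.absNorm v.1.asIdeal : ℝ) ^ (0 : ℝ) := fun v x => by
    unfold sym
    rw [norm_mul, hb, hb, Real.rpow_zero, mul_one]
  have hm0 : ∀ x ∈ Icc (1 / 2 : ℝ) (1 + 0), MeromorphicAt L (x : ℂ) := fun x hx =>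
    hL.mero x (by simpa using hx)
  have hm1 : ∀ x ∈ Icc (1 : ℝ) (1 + 0), MeromorphicAt L₁ (x : ℂ) := fun x hx =>
    hL₁.mero x (by simpa using hx)
  have hm2 : ∀ x ∈ Icc (1 : ℝ) (1 + 0), MeromorphicAt L₂ (x : ℂ) := fun x hx =>
    hL₂.mero x (by simpa using hx)
  have hp0 : ∀ s : ℂ, (1 : ℝ) + 0 < s.re → L s = ∏' v : {v | v ∉ S}, ∏ j,
      (1 - tensor a b v j * ((Ideal.absNorm v.1.asIdeal : ℕ) : ℂ) ^ (-s))⁻¹ := fun s hs =>
    hL.prod s (by linarith)
  have hp1 : ∀ s : ℂ, (1 : ℝ) + 0 < s.re → L₁ s = ∏' v : {v | v ∉ S}, ∏ j,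
      (1 - ext a v j * ((Ideal.absNorm v.1.asIdeal : ℕ) : ℂ) ^ (-s))⁻¹ := fun s hs =>
    hL₁.prod s (by linarith)
  have hp2 : ∀ s : ℂ, (1 : ℝ) + 0 < s.re → L₂ s = ∏' v : {v | v ∉ S}, ∏ j,
      (1 - sym b v j * ((Ideal.absNorm v.1.asIdeal : ℕ) : ℂ) ^ (-s))⁻¹ := fun s hs =>
    hL₂.prod s (by linarith)
  have hs : ∀ X : ℝ, 1 < X → _ := fun X hX => (jsummable hn0 (1 / 2) hm0 hp0 hγ hX).of_norm
  have hs1 : ∀ X : ℝ, 1 < X → _ := fun X hX => (jsummable hn1 1 hm1 hp1 hγ hX).of_norm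
  have hs2 : ∀ X : ℝ, 1 < X → _ := fun X hX => (jsummable hn2 1 hm2 hp2 hγ hX).of_norm
  have hV : ∀ X : ℝ, 1 < X → V a b γ X = jW (S := {v | v ∉ S}) (tensor a b) (1 / 2) γ X -
      jW (S := {v | v ∉ S}) (ext a) 1 γ X - jW (S := {v | v ∉ S}) (sym b) 1 γ X := by
    intro X hX
    unfold V jW
    rw [← (hs X hX).tsum_sub (hs1 X hX), ← ((hs X hX).sub (hs1 X hX)).tsum_sub (hs2 X hX)]
    exact tsum_congr fun x => (term_eq γ X x.1 (x.2 + 1)).symm
  have hhalf : ((1 / 2 : ℝ) : ℂ) = 1 / 2 := by push_cast; rfl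
  have hrate : (fun X : ℝ => Complex.exp (V a b γ X) - L (1 / 2) / (L₁ 1 * L₂ 1)) =O[atTop]
      (fun X : ℝ => 1 / Real.log X) := by
    have r0 := jrate hn0 (1 / 2) hm0 hL.holo hp0 hγ
    have r1 := jrate hn1 1 hm1 hL₁.holo hp1 hγ
    have r2 := jrate hn2 1 hm2 hL₂.holo hp2 hγ
    rw [hhalf] at r0
    rw [Complex.ofReal_one] at r1 r2
    have r3 := rate_mul (rate_mul r0 (rate_inv h₁ r1)) (rate_inv h₂ r2)
    refine r3.congr' ?_ (Eventually.of_forall fun _ => rfl)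
    filter_upwards [eventually_gt_atTop 1] with X hX
    rw [hV X hX, Complex.exp_sub, Complex.exp_sub]
    have e1 := Complex.exp_ne_zero (jW (S := {v | v ∉ S}) (ext a) 1 γ X)
    have e2 := Complex.exp_ne_zero (jW (S := {v | v ∉ S}) (sym b) 1 γ X)
    field_simp
  have hlim : Tendsto (fun X : ℝ => Complex.exp (V a b γ X)) atTop (𝓝 (L (1 / 2) / (L₁ 1 * L₂ 1))) := by
    have h1 := (hrate.trans_tendsto (tendsto_const_nhds.div_atTop Real.tendsto_log_atTop)).add_const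
      (L (1 / 2) / (L₁ 1 * L₂ 1))
    simpa using h1
  refine ⟨fun X hX => ?_, hrate, fun C => ⟨fun h => h ▸ hlim, fun h => tendsto_nhds_unique hlim h⟩⟩
  refine (((hs X hX).sub (hs1 X hX)).sub (hs2 X hX)).norm.congr fun x => ?_
  rw [term_eq]

end Pool.Agent.Results.MP_f4c338_nt.QuotientBySatake
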